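import Mathlib
import Pool.Agent.H20PT.Main

/-!
# Prime cubic twists of arbitrary members of a family: finite Mordell–Weil group, trivial `Ш[3^∞]` and
nonzero `L`-value, for finitely many curves at once

`E_D : y² + D y = x³` (it is `3`-isogenous to `x³ + y³ = D`; `E_{N q}` and `E_{N q²}` are the two cubic
twists of `E_N` by `q`).  `I` is a finite nonempty set of pairs `(N, e)`, where `N` is ANY cube-free
number all of whose prime factors are `≡ 1` modulo `3` (no condition on the number of the prime factors,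
on the rank, on `Ш` or on the `L`-function of `E_N`), and `e = 1` or `2`.

The primes `q ≡ 2` modulo `3` such that for ALL `(N, e)` in `I` the number `N q^e` is not `±1` modulo `9`,
`E_{N q^e}(ℚ)` is finite, `Ш(E_{N q^e}/ℚ)[3^∞] = 0` and `L(E_{N q^e}, 1) ≠ 0` have among all primes the
exact density `(c / 6) (μ / 3^|P|)`.  Here `P` is the set of the prime factors of the numbers `N`, `c` is
the number of the classes modulo `9` without obstruction (`2` for one curve, at least `1` for two), and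
`μ` is the number of the vectors `u : P → F₃` such that all the matrices `Lap(N) - e diag(u)` are
nonsingular; `Lap(N)` is the Laplacian of the cubic residue symbols between the prime factors of `N`.
Moreover `μ ≥ ∏_{p ∈ P} (3 - m_p)`, where `m_p` is the number of the members `(N, e)` with `p ∣ N`.

So every curve `E_N` has cubic twists by a set of primes of density at least `(1/3)(2/3)^t > 0` with these
properties, and every two curves `E_{N₁}`, `E_{N₂}` have simultaneous such twists for a set of primes of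
positive density.

The criterion for one `D` is that of the starting file `CubicTwistsCubeFree` (helpers 703, 419 and
others).
-/

set_option autoImplicit false

open scoped Classical

namespace Pool.Agent.Results.MP_e23604_nt.PrimeCubicTwists

open Filter Topology

/-- the curve `y² + D y = x³` over `ℚ` -/
def E (D : ℕ) : WeierstrassCurve ℚ := { a₁ := 0, a₂ := 0, a₃ := (D : ℚ), a₄ := 0, a₆ := 0 }

/-- `E_D(ℚ)` is finite and `Ш(E_D/ℚ)[3^∞] = 0` -/
def TrivialThree (D : ℕ) : Prop :=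
  Finite (E D).toAffine.Point ∧
    ∀ (n : ℕ) (x : Pool.Agent.TH841.SH.D.Sha (E D)), 3 ^ n • x = 0 → x = 0

/-- the `L`-function of the curve `y² = x³ - 432 D²`, which is isogenous to `E_D`, is entire and not
zero at `1`: there is an entire function equal to the Euler product over the primes `p ∤ 2 Δ` on
`Re s > 3 / 2`, and its value at `1` is not zero -/
def NonzeroL (D : ℕ) : Prop :=
  ∃ f : ℂ → ℂ, Differentiable ℂ f ∧
    (∀ s : ℂ, (3 : ℝ) / 2 < s.re → HasProd
      (fun p : {p : ℕ // p.Prime ∧ ¬ ((p : ℤ) ∣ 2 * (4 * 0 ^ 3 + 27 * (-432 * (D : ℤ) ^ 2) ^ 2))} =>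
        ((1 : ℂ)
          - ((((p.1 : ℤ) - (Nat.card {q : ZMod p.1 × ZMod p.1 //
                q.2 ^ 2 = q.1 ^ 3 + ((0 : ℤ) : ZMod p.1) * q.1 +
                  ((-432 * (D : ℤ) ^ 2 : ℤ) : ZMod p.1)} : ℤ)) : ℤ) : ℂ)
              * ((p.1 : ℂ) ^ (-s))
          + (p.1 : ℂ) ^ (1 - 2 * s))⁻¹) (f s)) ∧ f 1 ≠ 0

/-- `N` is cube-free and all its prime factors are `1` modulo `3` -/
def Split (N : ℕ) : Prop :=
  N ≠ 0 ∧ (∀ p : ℕ, p.Prime → ¬ p ^ 3 ∣ N) ∧ ∀ p : ℕ, p.Prime → p ∣ N → p % 3 = 1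

/-- `ℓ p` is a cubic logarithm modulo every prime `p ≡ 1` modulo `3`: a homomorphism to `ZMod 3` on the
numbers prime to `p` that vanishes exactly at the cubes modulo `p` -/
def CubicLog (ℓ : ℕ → ℕ → ZMod 3) : Prop :=
  (∀ p m n : ℕ, p.Prime → p % 3 = 1 → ¬ p ∣ m → ¬ p ∣ n → ℓ p (m * n) = ℓ p m + ℓ p n) ∧
  ∀ p n : ℕ, p.Prime → p % 3 = 1 → ¬ p ∣ n → (ℓ p n = 0 ↔ ∃ x : ℤ, (p : ℤ) ∣ (n : ℤ) - x ^ 3)

/-- the Laplacian of the cubic residue symbols between the prime factors of `N`: outside the diagonal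
the entry `(p, r)` is `v_r(N) ℓ_p(r)`, and all row sums are zero -/
noncomputable def lap (ℓ : ℕ → ℕ → ZMod 3) (N : ℕ) :
    Matrix N.primeFactors N.primeFactors (ZMod 3) :=
  Matrix.of fun p r => if (p : ℕ) = r then
    - ∑ s ∈ N.primeFactors.erase p, (N.factorization s : ZMod 3) * ℓ p s
    else (N.factorization r : ZMod 3) * ℓ p r

/-- the primes that divide a member of the family -/
def primesOf (I : Finset (ℕ × ℕ)) : Finset ℕ := I.biUnion fun i => i.1.primeFactors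

/-- the number of the `r = 2, 5, 8` such that no `N r^e` is `±1` modulo `9` -/
def classes (I : Finset (ℕ × ℕ)) : ℕ :=
  (({2, 5, 8} : Finset ℕ).filter fun r => ∀ i ∈ I, i.1 * r ^ i.2 % 9 ≠ 1 ∧ i.1 * r ^ i.2 % 9 ≠ 8).card

/-- `u` extended by zero -/
def ext {P : Finset ℕ} (u : P → ZMod 3) (p : ℕ) : ZMod 3 := if h : p ∈ P then u ⟨p, h⟩ else 0

/-- the number `μ` of the vectors `u` such that all the matrices `lap ℓ N - e diag(u)` are
nonsingular -/
noncomputable def μ (ℓ : ℕ → ℕ → ZMod 3) (I : Finset (ℕ × ℕ)) : ℕ :=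
  Nat.card {u : primesOf I → ZMod 3 // ∀ i ∈ I, (lap ℓ i.1 -
    (i.2 : ZMod 3) • Matrix.diagonal (fun p : i.1.primeFactors => ext u p)).det ≠ 0}

/-- `q` is a good prime for the pair `(N, e)`: `q ≡ 2` modulo `3`, `N q^e` is not `±1` modulo `9`,
`E_{N q^e}(ℚ)` is finite, `Ш(E_{N q^e}/ℚ)[3^∞] = 0` and the `L`-function is not zero at `1` -/
def Good (N e q : ℕ) : Prop :=
  q % 3 = 2 ∧ N * q ^ e % 9 ≠ 1 ∧ N * q ^ e % 9 ≠ 8 ∧ TrivialThree (N * q ^ e) ∧
    NonzeroL (N * q ^ e)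

/-- the set `Q` of primes has the density `δ` among the primes -/
def HasDensity (Q : ℕ → Prop) (δ : ℝ) : Prop :=
  Tendsto (fun X : ℕ => (((Finset.Icc 1 X).filter fun q => q.Prime ∧ Q q).card : ℝ) /
    (((Finset.Icc 1 X).filter fun q => q.Prime).card : ℝ)) atTop (𝓝 δ)

theorem E_eq (D : ℕ) : Pool.Agent.Y703.CT.EQ (Pool.Agent.Y703.CT.WD D) = E D := by
  unfold Pool.Agent.Y703.CT.EQ Pool.Agent.Y703.CT.WD E WeierstrassCurve.map
  simp

theorem three_iff (D : ℕ) : TrivialThree D ↔ Pool.Agent.Y703.CT.Triv3 D := by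
  unfold TrivialThree Pool.Agent.Y703.CT.Triv3
  rw [E_eq]

/-- the last two conditions -/
theorem good_iff {N e q : ℕ} (hN : Split N) (he : e = 1 ∨ e = 2) (hq : q.Prime) :
    Good N e q ↔ (q % 3 = 2 ∧ N * q ^ e % 9 ≠ 1 ∧ N * q ^ e % 9 ≠ 8 ∧
      Pool.Agent.Y703.CT.Triv3 (N * q ^ e)) := by
  unfold Good
  rw [three_iff]
  constructor
  · rintro ⟨a, b, c, d, -⟩
    exact ⟨a, b, c, d⟩
  · rintro ⟨a, b, c, d⟩
    have hC := Pool.Agent.H20PT.cls_of (N := N) (e := e) (q := q) hN he ⟨hq, a, b, c⟩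
    obtain ⟨-, f, -, -, u, -, -, h3⟩ := Pool.Agent.Y703.CT.fin_all hC
    exact ⟨a, b, c, d, (Pool.Agent.R419.CF.weak hC (h3.1 d)).1⟩

theorem lap_eq (ℓ : ℕ → ℕ → ZMod 3) (N : ℕ) (e : ZMod 3) (f : ℕ → ZMod 3) :
    (lap ℓ N - e • Matrix.diagonal (fun p : N.primeFactors => f p)).det ≠ 0 ↔
      Pool.Agent.H20PT.Ns N.primeFactors (Pool.Agent.H20PT.AN ℓ N) (fun p => -e * f p) := by
  rw [Pool.Agent.H20PT.Ns_coe, Pool.Agent.H20PT.Ns_iff_det]
  have h4 : lap ℓ N - e • Matrix.diagonal (fun p : N.primeFactors => f p) =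
      Matrix.of (fun p r : N.primeFactors => Pool.Agent.H20PT.AN ℓ N p r) +
        Matrix.diagonal (fun p : N.primeFactors => -e * f p) := by
    ext p r
    simp only [lap, Pool.Agent.H20PT.AN, Matrix.sub_apply, Matrix.add_apply, Matrix.smul_apply,
      Matrix.of_apply, Matrix.diagonal_apply, smul_eq_mul]
    split_ifs <;> ring
  rw [h4]

theorem μ_eq (ℓ : ℕ → ℕ → ZMod 3) (I : Finset (ℕ × ℕ)) :
    μ ℓ I = Pool.Agent.H20PT.num ℓ (primesOf I) I := by
  unfold μ Pool.Agent.H20PT.num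
  rw [Nat.card_eq_fintype_card, Fintype.card_subtype]
  congr 1
  refine Finset.filter_congr fun u _ => forall₂_congr fun i hi => ?_
  rw [lap_eq]
  exact Iff.rfl

/-- cubic logarithms exist -/
theorem exists_cubicLog : ∃ ℓ, CubicLog ℓ :=
  ⟨Pool.Agent.Y703.CX.lam, Pool.Agent.H20PT.lam_log.mul, Pool.Agent.H20PT.lam_log.cube⟩

/-- **Simultaneous prime cubic twists.** -/
theorem result (ℓ : ℕ → ℕ → ZMod 3) (hℓ : CubicLog ℓ) (I : Finset (ℕ × ℕ)) (hne : I.Nonempty)
    (hI : ∀ i ∈ I, Split i.1 ∧ (i.2 = 1 ∨ i.2 = 2)) :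
    -- the exact density of the primes that are good for all members
    HasDensity (fun q => ∀ i ∈ I, Good i.1 i.2 q)
      ((classes I : ℝ) / 6 * ((μ ℓ I : ℝ) / 3 ^ (primesOf I).card)) ∧
    -- the lower bounds
    ∏ p ∈ primesOf I, (3 - (I.filter fun i => p ∣ i.1).card) ≤ μ ℓ I ∧
    (I.card = 1 → classes I = 2) ∧ (I.card = 2 → 1 ≤ classes I) ∧
    -- the criterion for one prime
    (∀ i ∈ I, ∀ q : ℕ, q.Prime → (Good i.1 i.2 q ↔
      (q % 3 = 2 ∧ i.1 * q ^ i.2 % 9 ≠ 1 ∧ i.1 * q ^ i.2 % 9 ≠ 8 ∧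
        (lap ℓ i.1 - (i.2 : ZMod 3) •
          Matrix.diagonal (fun p : i.1.primeFactors => ℓ p q)).det ≠ 0))) := by
  have hP : ∀ p ∈ primesOf I, p.Prime ∧ p % 3 = 1 := by
    intro p hp
    unfold primesOf at hp
    rw [Finset.mem_biUnion] at hp
    obtain ⟨i, hi, hp⟩ := hp
    exact Pool.Agent.H20PT.Spl.pf (hI i hi).1 p hp
  have hsub : ∀ i ∈ I, i.1.primeFactors ⊆ primesOf I := fun i hi =>
    Finset.subset_biUnion_of_mem (fun i : ℕ × ℕ => i.1.primeFactors) hi
  have hI' : ∀ i ∈ I, Pool.Agent.H20PT.Spl i.1 ∧ (i.2 = 1 ∨ i.2 = 2) ∧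
      i.1.primeFactors ⊆ primesOf I := fun i hi => ⟨(hI i hi).1, (hI i hi).2, hsub i hi⟩
  refine ⟨?_, ?_, ?_, ?_, ?_⟩
  · have hd := Pool.Agent.H20PT.dens_fam (ℓ := ℓ) ⟨hℓ.1, hℓ.2⟩ hP hI'
    have h4 : (((Pool.Agent.H20PT.TT ℓ (primesOf I) I).card : ℝ) / (6 * 3 ^ (primesOf I).card)) =
        (classes I : ℝ) / 6 * ((μ ℓ I : ℝ) / 3 ^ (primesOf I).card) := by
      rw [Pool.Agent.H20PT.card_TT, μ_eq]
      have : classes I = Pool.Agent.H20PT.cls I := rfl
      rw [this]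
      push_cast
      field_simp
    rw [h4] at hd
    unfold HasDensity
    refine hd.congr fun X => ?_
    congr 3
    ext q
    simp only [Finset.mem_filter]
    refine and_congr_right fun _ => and_congr_right fun hq => ?_
    constructor
    · rintro ⟨h2, h⟩ i hi
      rw [good_iff (hI i hi).1 (hI i hi).2 hq]
      exact ⟨h2, h i hi⟩
    · intro h
      obtain ⟨i, hi⟩ := hne
      refine ⟨(h i hi).1, fun j hj => ?_⟩
      exact ((good_iff (hI j hj).1 (hI j hj).2 hq).1 (h j hj)).2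
  · rw [μ_eq]
    refine le_trans (le_of_eq ?_) (Pool.Agent.H20PT.num_ge fun i hi => ⟨(hI i hi).2, hsub i hi⟩)
    refine Finset.prod_congr rfl fun p hp => ?_
    congr 2
    refine Finset.filter_congr fun i hi => ?_
    rw [Nat.mem_primeFactors]
    exact ⟨fun h => ⟨(hP p hp).1, h, (hI i hi).1.1⟩, fun h => h.2.1⟩
  · intro h1
    obtain ⟨⟨N, e⟩, rfl⟩ := Finset.card_eq_one.1 h1
    have := hI (N, e) (Finset.mem_singleton_self _)
    exact Pool.Agent.H20PT.cls_one this.1 this.2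
  · intro h2
    exact Pool.Agent.H20PT.cls_two hI h2.le
  · intro i hi q hq
    obtain ⟨hN, he⟩ := hI i hi
    rw [good_iff hN he hq]
    refine and_congr_right fun h2 => and_congr_right fun h1 => and_congr_right fun h8 => ?_
    have hC := Pool.Agent.H20PT.cls_of (N := i.1) (e := i.2) (q := q) hN he ⟨hq, h2, h1, h8⟩
    obtain ⟨-, f, -, -, u, -, -, h3⟩ := Pool.Agent.Y703.CT.fin_all hC
    rw [h3, Pool.Agent.H20PT.nosplit_iff (ℓ := ℓ) ⟨hℓ.1, hℓ.2⟩ hN he ⟨hq, h2, h1, h8⟩,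
      lap_eq ℓ i.1 (i.2 : ZMod 3) (fun p => ℓ p q)]

end Pool.Agent.Results.MP_e23604_nt.PrimeCubicTwists
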