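import Mathlib
import Pool.Agent.H20PT.DenS

/-!
# Cubic twists by primes `q ≡ 1` modulo `3`: finite Mordell–Weil group, trivial `Ш[3^∞]` and nonzero
`L`-value, exact densities for finitely many curves at once

`E_D : y² + D y = x³` (it is `3`-isogenous to `x³ + y³ = D`).  `I` is a finite nonempty set of pairs
`(N, e)`, where `N` is ANY cube-free number prime to `3` that has exactly one prime factor `≡ 2` modulo
`3` (and any number of prime factors `≡ 1`; no condition on the rank, on `Ш` or on the `L`-function of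
`E_N`), and `e = 1` or `2`.

The primes `q ≡ 1` modulo `3` such that for ALL `(N, e)` in `I` the number `N q^e` is not `±1` modulo `9`,
`E_{N q^e}(ℚ)` is finite, `Ш(E_{N q^e}/ℚ)[3^∞] = 0` and `L(E_{N q^e}, 1) ≠ 0` have among all primes the
exact density `(c / 6) (μ / 3^(|S| + |P|))`.  Here `P` is the set of the prime factors of the numbers `N`,
`S` is the set of those that are `≡ 1` modulo `3`, `c` is the number of the classes `1, 4, 7` modulo `9`
without obstruction (`2` for one curve, at least `1` for two), and `μ` is the number of the pairs of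
vectors `a : S → F₃`, `y : P → F₃` such that all the bordered Laplacians `bord ℓ N e a y` of the cubic
residue symbols are nonsingular.  Moreover `μ ≥ 3^|S| ∏_{s ∈ P} (3 - m_s)`, where `m_s` is the number of
the members `(N, e)` with `s ∣ N`.

So for one curve `E_N` whose number `N` has `k` prime factors `≡ 1` modulo `3` the density is at least
`(1/3)(2/3)^(k+1) > 0`, and every two such curves have simultaneous such twists for a set of primes
`q ≡ 1` modulo `3` of positive density.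

For `q ≡ 1` modulo `3` the symbols `ℓ_q(s)`, which depend on the modulus `q`, enter the criterion next to
the symbols `ℓ_p(q)`, and the `3`-descent is not governed by congruences for `q`: the law of the two
kinds of symbols together comes from cubic reciprocity in `ℤ[ω]` and the density theorem of Chebotarev for
the field that is generated by the cube roots of the primary primes over `P` and of `ω`.

The criterion for one `D` is that of the starting file `CubicTwistsCubeFree` (helpers 703, 419 and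
others); the density theorem is from the starting library (helpers 401 and 283).
-/

set_option autoImplicit false

open scoped Classical

namespace Pool.Agent.Results.MP_e23604_nt.PrimeCubicTwistsSplit

open Filter Topology

/-- the curve `y² + D y = x³` over `ℚ` -/
def E (D : ℕ) : WeierstrassCurve ℚ := { a₁ := 0, a₂ := 0, a₃ := (D : ℚ), a₄ := 0, a₆ := 0 }

/-- `E_D(ℚ)` is finite and `Ш(E_D/ℚ)[3^∞] = 0` -/
def TrivialThree (D : ℕ) : Prop :=
  Finite (E D).toAffine.Point ∧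
    ∀ (n : ℕ) (x : Pool.Agent.TH841.SH.D.Sha (E D)), 3 ^ n • x = 0 → x = 0

/-- the `L`-function of the curve `y² = x³ - 432 D²`, which is isogenous to `E_D`, is entire and not
zero at `1`: there is an entire function equal to the Euler product over the primes `p ∤ 2 Δ` on
`Re s > 3 / 2`, and its value at `1` is not zero -/
def NonzeroL (D : ℕ) : Prop :=
  ∃ f : ℂ → ℂ, Differentiable ℂ f ∧
    (∀ s : ℂ, (3 : ℝ) / 2 < s.re → HasProd
      (fun p : {p : ℕ // p.Prime ∧ ¬ ((p : ℤ) ∣ 2 * (4 * 0 ^ 3 + 27 * (-432 * (D : ℤ) ^ 2) ^ 2))} =>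
        ((1 : ℂ)
          - ((((p.1 : ℤ) - (Nat.card {q : ZMod p.1 × ZMod p.1 //
                q.2 ^ 2 = q.1 ^ 3 + ((0 : ℤ) : ZMod p.1) * q.1 +
                  ((-432 * (D : ℤ) ^ 2 : ℤ) : ZMod p.1)} : ℤ)) : ℤ) : ℂ)
              * ((p.1 : ℂ) ^ (-s))
          + (p.1 : ℂ) ^ (1 - 2 * s))⁻¹) (f s)) ∧ f 1 ≠ 0

/-- `N` is cube-free and prime to `3`, and exactly one prime factor of `N` is `2` modulo `3` -/
def OneInert (N : ℕ) : Prop :=
  N ≠ 0 ∧ ¬ 3 ∣ N ∧ (∀ p : ℕ, p.Prime → ¬ p ^ 3 ∣ N) ∧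
    ∃ l : ℕ, l.Prime ∧ l % 3 = 2 ∧ l ∣ N ∧ ∀ p : ℕ, p.Prime → p ∣ N → p ≠ l → p % 3 = 1

/-- `ℓ p` is a cubic logarithm modulo every prime `p ≡ 1` modulo `3`: a homomorphism to `ZMod 3` on the
numbers prime to `p` that vanishes exactly at the cubes modulo `p` -/
def CubicLog (ℓ : ℕ → ℕ → ZMod 3) : Prop :=
  (∀ p m n : ℕ, p.Prime → p % 3 = 1 → ¬ p ∣ m → ¬ p ∣ n → ℓ p (m * n) = ℓ p m + ℓ p n) ∧
  ∀ p n : ℕ, p.Prime → p % 3 = 1 → ¬ p ∣ n → (ℓ p n = 0 ↔ ∃ x : ℤ, (p : ℤ) ∣ (n : ℤ) - x ^ 3)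

/-- the prime factors of `N` that are `1` modulo `3` -/
def split (N : ℕ) : Finset ℕ := N.primeFactors.filter fun p => p % 3 = 1

/-- the bordered Laplacian of `N`: it is the Laplacian of the cubic residue symbols between the prime
factors of `N q^e` without the row and the column of the prime factor `≡ 2` modulo `3`, if
`a p = ℓ_p(q)` and `y s = ℓ_q(s)`; the new prime `q` is the index `none` -/
noncomputable def bord (ℓ : ℕ → ℕ → ZMod 3) (N : ℕ) (e : ZMod 3) (a y : ℕ → ZMod 3) :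
    Matrix (Option (split N)) (Option (split N)) (ZMod 3)
  | some p, some r => if (p : ℕ) = r then
      - ∑ s ∈ N.primeFactors.erase p, (N.factorization s : ZMod 3) * ℓ p s - e * a p
      else (N.factorization r : ZMod 3) * ℓ p r
  | some p, none => e * a p
  | none, some r => (N.factorization r : ZMod 3) * y r
  | none, none => - ∑ s ∈ N.primeFactors, (N.factorization s : ZMod 3) * y s

/-- the primes that divide a member of the family -/
def primesOf (I : Finset (ℕ × ℕ)) : Finset ℕ := I.biUnion fun i => i.1.primeFactors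

/-- those that are `1` modulo `3` -/
def splitOf (I : Finset (ℕ × ℕ)) : Finset ℕ := (primesOf I).filter fun p => p % 3 = 1

/-- the number of the `r = 1, 4, 7` such that no `N r^e` is `±1` modulo `9` -/
def classes (I : Finset (ℕ × ℕ)) : ℕ :=
  (({1, 4, 7} : Finset ℕ).filter fun r => ∀ i ∈ I, i.1 * r ^ i.2 % 9 ≠ 1 ∧ i.1 * r ^ i.2 % 9 ≠ 8).card

/-- `u` extended by zero -/
def ext {P : Finset ℕ} (u : P → ZMod 3) (p : ℕ) : ZMod 3 := if h : p ∈ P then u ⟨p, h⟩ else 0

/-- the number `μ` of the pairs `(a, y)` such that all the matrices `bord ℓ N e a y` are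
nonsingular -/
noncomputable def μ (ℓ : ℕ → ℕ → ZMod 3) (I : Finset (ℕ × ℕ)) : ℕ :=
  Nat.card {x : (splitOf I → ZMod 3) × (primesOf I → ZMod 3) // ∀ i ∈ I,
    (bord ℓ i.1 (i.2 : ZMod 3) (ext x.1) (ext x.2)).det ≠ 0}

/-- `q` is a good prime for the pair `(N, e)`: `q ≡ 1` modulo `3`, `N q^e` is not `±1` modulo `9`,
`E_{N q^e}(ℚ)` is finite, `Ш(E_{N q^e}/ℚ)[3^∞] = 0` and the `L`-function is not zero at `1` -/
def Good (N e q : ℕ) : Prop :=
  q % 3 = 1 ∧ N * q ^ e % 9 ≠ 1 ∧ N * q ^ e % 9 ≠ 8 ∧ TrivialThree (N * q ^ e) ∧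
    NonzeroL (N * q ^ e)

/-- the set `Q` of primes has the density `δ` among the primes -/
def HasDensity (Q : ℕ → Prop) (δ : ℝ) : Prop :=
  Tendsto (fun X : ℕ => (((Finset.Icc 1 X).filter fun q => q.Prime ∧ Q q).card : ℝ) /
    (((Finset.Icc 1 X).filter fun q => q.Prime).card : ℝ)) atTop (𝓝 δ)

theorem E_eq (D : ℕ) : Pool.Agent.Y703.CT.EQ (Pool.Agent.Y703.CT.WD D) = E D := by
  unfold Pool.Agent.Y703.CT.EQ Pool.Agent.Y703.CT.WD E WeierstrassCurve.map
  simp

theorem three_iff (D : ℕ) : TrivialThree D ↔ Pool.Agent.Y703.CT.Triv3 D := by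
  unfold TrivialThree Pool.Agent.Y703.CT.Triv3
  rw [E_eq]

theorem one_of {N : ℕ} (h : OneInert N) : ∃ l : ℕ, Pool.Agent.H20PT.OneI N l := by
  obtain ⟨h0, h3, hc, l, a, b, c, d⟩ := h
  exact ⟨l, ⟨h0, h3, hc⟩, a, b, c, d⟩

/-- the last two conditions -/
theorem good_iff {N l e q : ℕ} (hN : Pool.Agent.H20PT.OneI N l) (he : e = 1 ∨ e = 2) (hq : q.Prime)
    (hqN : ¬ q ∣ N) :
    Good N e q ↔ (q % 3 = 1 ∧ N * q ^ e % 9 ≠ 1 ∧ N * q ^ e % 9 ≠ 8 ∧
      Pool.Agent.Y703.CT.Triv3 (N * q ^ e)) := by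
  unfold Good
  rw [three_iff]
  constructor
  · rintro ⟨a, b, c, d, -⟩
    exact ⟨a, b, c, d⟩
  · rintro ⟨a, b, c, d⟩
    have hC := Pool.Agent.H20PT.cls_ofS (N := N) (e := e) (q := q) hN he ⟨hq, a, hqN, b, c⟩
    obtain ⟨-, f, -, -, u, -, -, h3⟩ := Pool.Agent.Y703.CT.fin_all hC
    exact ⟨a, b, c, d, (Pool.Agent.R419.CF.weak hC (h3.1 d)).1⟩

theorem split_eq {N l : ℕ} (hN : Pool.Agent.H20PT.OneI N l) :
    split N = N.primeFactors.erase l := by
  ext p
  unfold split
  rw [Finset.mem_filter, Finset.mem_erase]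
  exact ⟨fun h => ⟨hN.ne h.2, h.1⟩, fun h => ⟨h.2, hN.one h.2 h.1⟩⟩

theorem bord_eq {N l : ℕ} (hN : Pool.Agent.H20PT.OneI N l) (ℓ : ℕ → ℕ → ZMod 3) (e : ZMod 3)
    (a y : ℕ → ZMod 3) : (bord ℓ N e a y).det ≠ 0 ↔ Pool.Agent.H20PT.Kb ℓ N l e a y := by
  have h0 : 0 ∉ split N := fun h => Pool.Agent.H20PT.zero_notMem N (Finset.mem_filter.1 h).1
  rw [Pool.Agent.H20PT.kb_iff_Ns hN, ← split_eq hN, Pool.Agent.H20PT.Ns_option h0,
    Pool.Agent.H20PT.FF.Ns_iff_det]
  have h1 : bord ℓ N e a y = Matrix.of (fun i j : Option (split N) =>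
      Pool.Agent.H20PT.Ab ℓ N e a y (Pool.Agent.H20PT.oo i) (Pool.Agent.H20PT.oo j)) +
      Matrix.diagonal (fun i : Option (split N) =>
        Pool.Agent.H20PT.ub N e a y (Pool.Agent.H20PT.oo i)) := by
    ext i j
    rw [Matrix.add_apply, Matrix.of_apply, Matrix.diagonal_apply]
    have hn : ∀ p : split N, (p : ℕ) ≠ 0 := fun p hp => h0 (hp ▸ p.2)
    cases i with
    | none =>
      cases j with
      | none =>
        simp [bord, Pool.Agent.H20PT.Ab, Pool.Agent.H20PT.ub, Pool.Agent.H20PT.oo]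
      | some r =>
        simp [bord, Pool.Agent.H20PT.Ab, Pool.Agent.H20PT.oo, hn r]
    | some p =>
      cases j with
      | none =>
        simp [bord, Pool.Agent.H20PT.Ab, Pool.Agent.H20PT.oo, hn p]
      | some r =>
        have hpr : (some p = some r) ↔ ((p : ℕ) = r) := by
          rw [Option.some_inj]
          exact Subtype.ext_iff
        simp only [bord, Pool.Agent.H20PT.Ab, Pool.Agent.H20PT.ub, Pool.Agent.H20PT.oo, hn p, hn r,
          if_false, hpr, Pool.Agent.H20PT.AN]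
        split_ifs with h2
        · ring
        · ring
  rw [h1]

/-- cubic logarithms exist -/
theorem exists_cubicLog : ∃ ℓ, CubicLog ℓ :=
  ⟨Pool.Agent.Y703.CX.lam, Pool.Agent.H20PT.lam_log.mul, Pool.Agent.H20PT.lam_log.cube⟩

/-- **Simultaneous cubic twists by primes `≡ 1` modulo `3`.** -/
theorem result (ℓ : ℕ → ℕ → ZMod 3) (hℓ : CubicLog ℓ) (I : Finset (ℕ × ℕ))
    (hne : I.Nonempty) (hI : ∀ i ∈ I, OneInert i.1 ∧ (i.2 = 1 ∨ i.2 = 2)) :
    -- the exact density of the primes that are good for all members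
    HasDensity (fun q => ∀ i ∈ I, Good i.1 i.2 q)
      ((classes I : ℝ) / 6 * ((μ ℓ I : ℝ) / 3 ^ ((splitOf I).card + (primesOf I).card))) ∧
    -- the lower bounds
    (∏ s ∈ primesOf I, (3 - (I.filter fun i => s ∣ i.1).card)) * 3 ^ (splitOf I).card ≤ μ ℓ I ∧
    (I.card = 1 → classes I = 2) ∧ (I.card = 2 → 1 ≤ classes I) ∧
    -- the criterion for one prime
    (∀ i ∈ I, ∀ q : ℕ, q.Prime → ¬ q ∣ i.1 → (Good i.1 i.2 q ↔
      (q % 3 = 1 ∧ i.1 * q ^ i.2 % 9 ≠ 1 ∧ i.1 * q ^ i.2 % 9 ≠ 8 ∧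
        (bord ℓ i.1 (i.2 : ZMod 3) (fun p => ℓ p q) (fun s => ℓ q s)).det ≠ 0))) := by
  -- the inert primes
  have hex : ∀ N : ℕ, ∃ l : ℕ, OneInert N → Pool.Agent.H20PT.OneI N l := by
    intro N
    by_cases h : OneInert N
    · obtain ⟨l, hl⟩ := one_of h
      exact ⟨l, fun _ => hl⟩
    · exact ⟨0, fun h' => absurd h' h⟩
  choose lf hlf using hex
  have hone : ∀ i ∈ I, Pool.Agent.H20PT.OneI i.1 (lf i.1) := fun i hi => hlf i.1 (hI i hi).1
  have hF : Pool.Agent.H20PT.Fam lf (primesOf I) I := by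
    refine ⟨hone, fun i hi => (hI i hi).2, fun i hi =>
      Finset.subset_biUnion_of_mem (fun i : ℕ × ℕ => i.1.primeFactors) hi, fun u hu => ?_⟩
    unfold primesOf at hu
    rw [Finset.mem_biUnion] at hu
    obtain ⟨i, hi, hu⟩ := hu
    refine ⟨Nat.prime_of_mem_primeFactors hu, ?_⟩
    rintro rfl
    exact (hI i hi).1.2.1 (Nat.dvd_of_mem_primeFactors hu)
  have hμ : μ ℓ I = Pool.Agent.H20PT.nu ℓ lf (primesOf I) I := by
    unfold μ Pool.Agent.H20PT.nu
    rw [Nat.card_eq_fintype_card, Fintype.card_subtype]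
    congr 1
    refine Finset.filter_congr fun x _ => forall₂_congr fun i hi => ?_
    exact bord_eq (hone i hi) ℓ _ _ _
  refine ⟨?_, ?_, ?_, ?_, ?_⟩
  · have hd := Pool.Agent.H20PT.dens_famS (ℓ := ℓ) ⟨hℓ.1, hℓ.2⟩ hF
    have h4 : ((Pool.Agent.H20PT.clsS I : ℝ) / 6 *
        ((Pool.Agent.H20PT.nu ℓ lf (primesOf I) I : ℝ) /
          3 ^ ((Pool.Agent.H20PT.P1 (primesOf I)).card + (primesOf I).card))) =
        (classes I : ℝ) / 6 * ((μ ℓ I : ℝ) / 3 ^ ((splitOf I).card + (primesOf I).card)) := by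
      rw [hμ]
      rfl
    rw [h4] at hd
    have h5 : ∀ q : ℕ, (primesOf I).sup id < q → q.Prime → ((q % 3 = 1 ∧ ∀ i ∈ I,
        i.1 * q ^ i.2 % 9 ≠ 1 ∧ i.1 * q ^ i.2 % 9 ≠ 8 ∧
          Pool.Agent.Y703.CT.Triv3 (i.1 * q ^ i.2)) ↔ ∀ i ∈ I, Good i.1 i.2 q) := by
      intro q hq hqp
      have hqN : ∀ i ∈ I, ¬ q ∣ i.1 := by
        intro i hi hd'
        have h6 : q ∈ primesOf I := hF.sub i hi
          (Nat.mem_primeFactors.2 ⟨hqp, hd', (hone i hi).1.1⟩)
        have h7 : id q ≤ (primesOf I).sup id := Finset.le_sup h6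
        simp only [id] at h7
        omega
      constructor
      · rintro ⟨h1, h⟩ i hi
        rw [good_iff (hone i hi) (hI i hi).2 hqp (hqN i hi)]
        exact ⟨h1, h i hi⟩
      · intro h
        obtain ⟨i, hi⟩ := hne
        refine ⟨(h i hi).1, fun j hj => ?_⟩
        exact ((good_iff (hone j hj) (hI j hj).2 hqp (hqN j hj)).1 (h j hj)).2
    have h6 := Pool.Agent.H20PT.dens_congr (S := fun q => q % 3 = 1 ∧ ∀ i ∈ I,
        i.1 * q ^ i.2 % 9 ≠ 1 ∧ i.1 * q ^ i.2 % 9 ≠ 8 ∧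
          Pool.Agent.Y703.CT.Triv3 (i.1 * q ^ i.2)) (T := fun q => ∀ i ∈ I, Good i.1 i.2 q)
      ((primesOf I).sup id) h5
      (δ := (classes I : ℝ) / 6 * ((μ ℓ I : ℝ) / 3 ^ ((splitOf I).card + (primesOf I).card)))
      (by convert hd)
    unfold HasDensity
    convert h6
  · rw [hμ]
    exact Pool.Agent.H20PT.nu_ge hF
  · intro h1
    obtain ⟨⟨N, e⟩, rfl⟩ := Finset.card_eq_one.1 h1
    exact Pool.Agent.H20PT.clsS_one (hone (N, e) (Finset.mem_singleton_self _))
      (hI (N, e) (Finset.mem_singleton_self _)).2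
  · intro h2
    have h3 := Pool.Agent.H20PT.clsS_ge (lf := lf) (I := I) fun i hi => ⟨hone i hi, (hI i hi).2⟩
    have h4 : classes I = Pool.Agent.H20PT.clsS I := rfl
    omega
  · intro i hi q hq hqN
    rw [good_iff (hone i hi) (hI i hi).2 hq hqN]
    refine and_congr_right fun h1 => and_congr_right fun h2 => and_congr_right fun h8 => ?_
    rw [Pool.Agent.H20PT.triv_iff (ℓ := ℓ) ⟨hℓ.1, hℓ.2⟩ (hone i hi) (hI i hi).2
      ⟨hq, h1, hqN, h2, h8⟩, bord_eq (hone i hi)]

end Pool.Agent.Results.MP_e23604_nt.PrimeCubicTwistsSplit
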