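import Pool.Agent.H18PR.RatLaw
import Pool.Agent.H18PR.ShaLaw
import Pool.Agent.H18PR.Sha2

/-!
# The law of the rank and the 2-torsion of the Tate-Shafarevich group, up to `ε`, in large families of
elliptic curves over `ℚ`

The elliptic curves over `ℚ` are the curves `E_{a,b} : y² = x³ + a x + b` with integers `a`, `b` such that
`4 a³ + 27 b² ≠ 0` and there is no prime `q` with `q⁴ ∣ a` and `q⁶ ∣ b`. They are ordered by the naive
height `max (4 |a|³, 27 b²)`. `Ш(E)` is the set of the classes of the continuous cocycles of the absolute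
Galois group of `ℚ` with values in the points of `E` over a separable closure of `ℚ` which are trivial
over `ℚ_q` for all primes `q` and over `ℝ`, modulo the coboundaries. The constants of Poonen and Rains are
`C_{2,k} = ∏_{j ≥ 0} (1 + 2^{-j})^{-1} ∏_{1 ≤ i ≤ k} 2 / (2^i - 1)`, so `C_{2,0} = 0.2097…`,
`C_{2,1} = 0.4194…`, `C_{2,2} = 0.2796…`, `C_{2,3} = 0.0799…`.

**Theorem.** Let `ε > 0`. There is a family of elliptic curves over `ℚ`, given by congruences for `a` and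
`b` modulo some `M` and by the condition that `4 a³ + 27 b²` is not divisible by the square of a prime
which does not divide `M`, which contains a positive proportion of all elliptic curves, such that for all
large heights `X` the following holds for the members of the family of height at most `X`.

(1) For EVERY set `K` of natural numbers the proportion of the members `E` with
`rank E(ℚ) + dim Ш(E)[2] ∈ K` differs from `∑_{k ∈ K} C_{2,k}` by at most `ε`.

(2) The proportion of the members `E` for which `E(ℚ)` is finite of odd order and `Ш(E)` has no element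
of order two (equivalently, `Ш(E)[2^∞] = 0`) differs from `C_{2,0} = 0.2097…` by at most `ε`.

(3) For every `k` the proportion of the members `E` for which `Ш(E)[2]` has at least `2^k` elements is at
most `∑_{j ≥ k} C_{2,j} + ε`.

The conjecture is that `Ш(E)` is finite. For its 2-primary part this says that the corank `δ` of
`Ш(E)[2^∞]` is zero. As `δ ≤ dim Ш(E)[2]`, (3) bounds the proportion of the members for which `δ` is
large, and (1) gives the distribution of `rank E(ℚ) + dim Ш(E)[2]` up to the error `ε`, in the ordering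
by height. For instance `rank E(ℚ) + dim Ш(E)[2] ≤ 1` for all but the proportion `0.371 + ε` of the
members, and the 2-primary part of `Ш(E)` vanishes, so it is finite, for all curves in (2).

Idea of the proof. Project PR (helper68 and the seats named there, on project PF of the starting library)
gives the law of Poonen and Rains for the orders of the 2-Selmer groups, up to `ε`, in large families:
the members are the twists of the curves `y² = f(x)` by random products of primes, for which the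
dimensions of the Selmer groups form an approximate Markov chain, and products with even and with odd
numbers of primes of the same size are combined. Since the cubics are irreducible, `E(ℚ)[2] = 0`, and the
exact sequence `0 → E(ℚ) / 2 → Sel_2(E) → Ш(E)[2] → 0` and the theorem of Mordell give
`# Sel_2(E) = 2^{rank E(ℚ)} # Ш(E)[2]`.
-/

set_option autoImplicit false

namespace Pool.Agent.Results.MP_e23604_nt.ShaTwoTorsionLaw

open NumberField IsDedekindDomain
open Pool.Agent.TH115.GD (Pt act rs IsCoc LocTriv Comp Sep)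
open scoped Classical

section sha

variable {F : Type} [Field F] [NumberField F]

/-- The maps of the absolute Galois group of `F` to the points of `W` over a separable closure. -/
def Cochain (W : WeierstrassCurve F) : Type := (Sep F ≃ₐ[F] Sep F) → Pt W (Sep F)

noncomputable instance cochainGroup (W : WeierstrassCurve F) : AddCommGroup (Cochain W) :=
  Pi.addCommGroup

/-- The cochain `f` becomes a coboundary over the completion of `F` at every prime, and over `ℝ`. -/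
structure Locally (W : WeierstrassCurve F) (f : Cochain W) : Prop where
  finite : ∀ v : HeightOneSpectrum (𝓞 F), LocTriv W (Comp (𝓞 F) F v) (Sep (Comp (𝓞 F) F v)) f
  real : ∀ ρ : F →+* ℝ, letI := ρ.toAlgebra; LocTriv W ℝ (Sep ℝ) f

/-- The coboundaries of the points of `W` over a separable closure. -/
noncomputable def Coboundaries (W : WeierstrassCurve F) : AddSubgroup (Cochain W) where
  carrier := {f | ∃ T : Pt W (Sep F), ∀ σ, f σ = act W (rs F σ) T - T}
  zero_mem' := (Pool.Agent.H68K.PR.CobP W).zero_mem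
  add_mem' := (Pool.Agent.H68K.PR.CobP W).add_mem
  neg_mem' := (Pool.Agent.H68K.PR.CobP W).neg_mem

/-- The group of the cochains modulo the coboundaries. It contains `H¹(F, W)`. -/
def Classes (W : WeierstrassCurve F) : Type := Cochain W ⧸ Coboundaries W

noncomputable instance classesGroup (W : WeierstrassCurve F) : AddCommGroup (Classes W) :=
  QuotientAddGroup.Quotient.addCommGroup (Coboundaries W)

/-- The class of a cochain. -/
noncomputable def cls (W : WeierstrassCurve F) (f : Cochain W) : Classes W := QuotientAddGroup.mk f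

/-- The Tate-Shafarevich group of `W`: the classes of the continuous cocycles which are locally
trivial. -/
def Sha (W : WeierstrassCurve F) : Set (Classes W) :=
  {x | ∃ f : Cochain W, IsCoc W f ∧ Locally W f ∧ x = cls W f}

end sha

/-- The curve `y² = x³ + a x + b`. -/
def curve (p : ℤ × ℤ) : WeierstrassCurve ℚ := ⟨0, 0, 0, (p.1 : ℚ), (p.2 : ℚ)⟩

/-- The rank of the group `W(F)` of the points of `W` over `F`. -/
noncomputable def mordellWeilRank {F : Type} [Field F] (W : WeierstrassCurve F) : ℕ :=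
  Module.finrank ℤ (Pt W F)

/-- The rank of the group of rational points. -/
noncomputable def rank (p : ℤ × ℤ) : ℕ := mordellWeilRank (curve p)

/-- The number of the elements `x` of `Ш` with `2 x = 0`. -/
noncomputable def shaTwo (p : ℤ × ℤ) : ℕ :=
  Nat.card {x : Classes (curve p) // x ∈ Sha (curve p) ∧ (2 : ℕ) • x = 0}

/-- The group of rational points is finite of odd order, and `Ш` has no nonzero element of 2-power
order. -/
structure Good (p : ℤ × ℤ) : Prop where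
  finite : Finite (Pt (curve p) ℚ)
  odd : Odd (Nat.card (Pt (curve p) ℚ))
  sha : ∀ x ∈ Sha (curve p), ∀ n : ℕ, (2 ^ n : ℕ) • x = 0 → x = 0

/-- `E_{a,b}` is an elliptic curve and the equation is minimal: the elliptic curves over `ℚ`. -/
def IsCurve (p : ℤ × ℤ) : Prop :=
  4 * p.1 ^ 3 + 27 * p.2 ^ 2 ≠ 0 ∧ ∀ q : ℕ, q.Prime → ¬ ((q : ℤ) ^ 4 ∣ p.1 ∧ (q : ℤ) ^ 6 ∣ p.2)

/-- The naive height. -/
def height (p : ℤ × ℤ) : ℤ := max (4 * |p.1| ^ 3) (27 * p.2 ^ 2)

/-- The elliptic curves over `ℚ` of height at most `X`. -/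
def UpTo (X : ℝ) : Set (ℤ × ℤ) := {p | IsCurve p ∧ (height p : ℝ) ≤ X}

/-- `R` is a union of residue classes modulo `M`. -/
def Periodic (M : ℕ) (R : Set (ℤ × ℤ)) : Prop :=
  ∀ p p' : ℤ × ℤ, p ∈ R → (M : ℤ) ∣ p'.1 - p.1 → (M : ℤ) ∣ p'.2 - p.2 → p' ∈ R

/-- The family given by `M` and `R`: the pairs `(a, b)` in `R` such that `4 a³ + 27 b²` is not divisible by
the square of a prime which does not divide `M`. -/
def Family (M : ℕ) (R : Set (ℤ × ℤ)) : Set (ℤ × ℤ) :=
  {p | p ∈ R ∧ ∀ q : ℕ, q.Prime → ¬ q ∣ M → ¬ (q : ℤ) ^ 2 ∣ 4 * p.1 ^ 3 + 27 * p.2 ^ 2}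

/-- The constant `C_{2,k}` of Poonen and Rains. -/
noncomputable def poonenRains (k : ℕ) : ℝ :=
  (∏' j : ℕ, (1 + (2 : ℝ)⁻¹ ^ j)⁻¹) * ∏ i ∈ Finset.range k, (2 / ((2 : ℝ) ^ (i + 1) - 1))

/-- The proportion of the members of `G` which are in `A` is `d` up to `ε`. -/
def Share (ε : ℝ) (G A : Set (ℤ × ℤ)) (d : ℝ) : Prop :=
  |((G ∩ A).ncard : ℝ) - d * (G.ncard : ℝ)| ≤ ε * (G.ncard : ℝ)

/-- The law, up to `ε`, of the rank and the 2-torsion of `Ш` for the curves `E_{a,b}` with `(a, b) ∈ G`. -/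
structure Law (ε : ℝ) (G : Set (ℤ × ℤ)) : Prop where
  joint : ∀ K : Set ℕ,
    Share ε G {p | ∃ k ∈ K, 2 ^ rank p * shaTwo p = 2 ^ k} (∑' k : K, poonenRains k)
  good : Share ε G {p | Good p} (poonenRains 0)
  large : ∀ k : ℕ, ((G ∩ {p | 2 ^ k ≤ shaTwo p}).ncard : ℝ) ≤
    ((∑' j : {j : ℕ | k ≤ j}, poonenRains j) + ε) * (G.ncard : ℝ)

theorem coboundaries_eq (W : WeierstrassCurve ℚ) :
    Coboundaries W = Pool.Agent.H68K.PR.CobP W := rfl

theorem locally_iff (W : WeierstrassCurve ℚ) (f : Cochain W) :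
    Locally W f ↔ Pool.Agent.N874.QM.IsLoc W f :=
  ⟨fun h => ⟨h.finite, h.real⟩, fun h => ⟨h.fin, h.real⟩⟩

theorem shaTwo_eq (p : ℤ × ℤ) :
    shaTwo p = Nat.card (Pool.Agent.H68K.PR.Sha2 (Pool.Agent.N874.PP.sW (p.1 : ℚ) (p.2 : ℚ))) := by
  refine Nat.card_congr (Equiv.subtypeEquivRight fun x => ?_)
  constructor
  · rintro ⟨⟨f, h1, h2, rfl⟩, h3⟩
    refine ⟨f, h1, (locally_iff _ f).1 h2, ?_, rfl⟩
    have h4 : (QuotientAddGroup.mk ((2 : ℕ) • f) : Cochain (curve p) ⧸ Coboundaries (curve p)) = 0 :=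
      h3
    obtain ⟨T, hT⟩ := (QuotientAddGroup.eq_zero_iff _).1 h4
    exact ⟨T, hT⟩
  · rintro ⟨f, h1, h2, ⟨T, hT⟩, rfl⟩
    refine ⟨⟨f, h1, (locally_iff _ f).2 h2, rfl⟩, ?_⟩
    show (QuotientAddGroup.mk ((2 : ℕ) • f) : Cochain (curve p) ⧸ Coboundaries (curve p)) = 0
    exact (QuotientAddGroup.eq_zero_iff _).2 ⟨T, hT⟩

open Pool.Agent.H18PR.RL (E E_fst E_snd)

theorem law_of_gd (hS : Pool.Agent.H68K.PR.S_SHA2) {k : ℕ} {p : ℤ × ℤ}
    (h : Pool.Agent.H68K.PR.Gd (2 ^ k) (E p)) : 2 ^ rank p * shaTwo p = 2 ^ k := by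
  have h1 := Pool.Agent.H68K.PR.selP_of Pool.Agent.H42PR.coc h
  obtain ⟨h2, -⟩ := h
  rw [E_fst, E_snd] at h2
  have h3 := Pool.Agent.H64.PR.disc_ne h2
  rw [shaTwo_eq]
  have h4 : Nat.card (Pool.Agent.H68K.PR.Sel2 (Pool.Agent.N874.PP.sW (p.1 : ℚ) (p.2 : ℚ)))
      = 2 ^ k := by
    rw [← h1]
    unfold Pool.Agent.H68K.PR.selP
    rw [E_fst, E_snd]
  exact Pool.Agent.H18PR.RL.sha_of_sel hS h2 h3 h4

theorem good_of_gd {p : ℤ × ℤ} (h : Pool.Agent.H68K.PR.Gd (2 ^ 0) (E p)) : Good p := by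
  have h1 := Pool.Agent.H68K.PR.selP_of Pool.Agent.H42PR.coc h
  obtain ⟨h2, -⟩ := h
  rw [E_fst, E_snd] at h2
  have h3 := Pool.Agent.H64.PR.disc_ne h2
  have h4 : Nat.card (Pool.Agent.H68K.PR.Sel2 (Pool.Agent.N874.PP.sW (p.1 : ℚ) (p.2 : ℚ)))
      = 1 := by
    rw [← pow_zero 2, ← h1]
    unfold Pool.Agent.H68K.PR.selP
    rw [E_fst, E_snd]
  obtain ⟨h5, h6, h7⟩ := Pool.Agent.H18PR.RL.good_of_sel h3 h4
  refine ⟨h5, h6, ?_⟩
  rintro x ⟨f, hf, hl, rfl⟩ n hn
  have h8 : (QuotientAddGroup.mk ((2 ^ n : ℕ) • f) : Cochain (curve p) ⧸ Coboundaries (curve p)) = 0 :=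
    hn
  obtain ⟨T, hT⟩ := (QuotientAddGroup.eq_zero_iff _).1 h8
  obtain ⟨Q, hQ⟩ := h7 f hf ((locally_iff _ f).1 hl) ⟨n, T, hT⟩
  exact (QuotientAddGroup.eq_zero_iff _).2 ⟨Q, hQ⟩

theorem mordellWeilRank_zero {F : Type} [Field F] {W : WeierstrassCurve F} (h : Finite (Pt W F)) :
    mordellWeilRank W = 0 := by
  unfold mordellWeilRank
  exact Pool.Agent.H18PR.RL.finrank_zero

theorem law_of_good {p : ℤ × ℤ} (h : Good p) : 2 ^ rank p * shaTwo p = 1 := by
  have h1 : rank p = 0 := mordellWeilRank_zero h.finite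
  have h2 : shaTwo p = 1 := by
    unfold shaTwo
    rw [Nat.card_eq_one_iff_exists]
    have h0 := Pool.Agent.H18PR.RL.zero_mem_sha (curve p)
    obtain ⟨f, hf, hl, -, h3⟩ := h0
    have h4 : (0 : Cochain (curve p) ⧸ Coboundaries (curve p)) ∈ Sha (curve p) :=
      ⟨f, hf, (locally_iff _ f).2 hl, h3⟩
    refine ⟨⟨0, h4, by simp⟩, ?_⟩
    rintro ⟨x, hx, hx2⟩
    refine Subtype.ext ?_
    exact h.sha x hx 1 (by rw [pow_one]; exact hx2)
  rw [h1, h2]; norm_num

/-- Members which satisfy the law with a value in `K`. -/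
theorem upper {α : Type} (G : Set α) (hG : G.Finite) (P : ℕ → α → Prop) (ε : ℝ)
    (h : ∀ K : Set ℕ, |({x | x ∈ G ∧ ∃ k ∈ K, P k x}.ncard : ℝ) -
      (∑' k : K, Pool.Agent.H68K.PR.pr2 k) * (G.ncard : ℝ)| ≤ ε * (G.ncard : ℝ)) (K : Set ℕ)
    (A : Set α) (h2 : ∀ x ∈ G, (∃ k ∈ Kᶜ, P k x) → x ∉ A) :
    ({x | x ∈ G ∧ x ∈ A}.ncard : ℝ) ≤
      ((∑' k : K, Pool.Agent.H68K.PR.pr2 k) + ε) * (G.ncard : ℝ) := by
  obtain ⟨hpos, hsum, -⟩ := Pool.Agent.H10PR.eul
  have e1 : (∑' k : K, Pool.Agent.H68K.PR.pr2 k) + (∑' k : (Kᶜ : Set ℕ), Pool.Agent.H68K.PR.pr2 k)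
      = 1 := by
    rw [← hsum.tsum_eq]
    exact Summable.tsum_add_tsum_compl (f := Pool.Agent.H68K.PR.pr2) (s := K)
      (hsum.summable.subtype K) (hsum.summable.subtype Kᶜ)
  have a2 := (abs_le.1 (h Kᶜ)).1
  have b2 : ({x | x ∈ G ∧ ∃ k ∈ Kᶜ, P k x}.ncard : ℝ) + ({x | x ∈ G ∧ x ∈ A}.ncard : ℝ) ≤
      (G.ncard : ℝ) := by
    have hd : Disjoint {x | x ∈ G ∧ ∃ k ∈ Kᶜ, P k x} {x | x ∈ G ∧ x ∈ A} := by
      rw [Set.disjoint_left]
      rintro x ⟨hx, hx1⟩ ⟨-, hx2⟩
      exact h2 x hx hx1 hx2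
    have e2 := Set.ncard_union_eq hd (hG.subset fun x hx => hx.1) (hG.subset fun x hx => hx.1)
    have e3 := Set.ncard_le_ncard (s := {x | x ∈ G ∧ ∃ k ∈ Kᶜ, P k x} ∪ {x | x ∈ G ∧ x ∈ A})
      (t := G) (by
        rintro x (hx | hx)
        · exact hx.1
        · exact hx.1) hG
    rw [e2] at e3
    exact_mod_cast e3
  have e3 : (∑' k : (Kᶜ : Set ℕ), Pool.Agent.H68K.PR.pr2 k) =
      1 - ∑' k : K, Pool.Agent.H68K.PR.pr2 k := by linarith
  rw [e3] at a2
  linarith

theorem isCurve_of {M : ℕ} {R : Set (ℤ × ℤ)}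
    (hmin : ∀ p ∈ Pool.Agent.H18PR.RL.Fam M R, ∀ q : ℕ, q.Prime →
      ¬ ((q : ℤ) ^ 4 ∣ p.1 ∧ (q : ℤ) ^ 6 ∣ p.2)) (X : ℝ) :
    UpTo X ∩ Family M R =
      {p : ℤ × ℤ | (Pool.Agent.H18PR.RL.Hn p : ℝ) ≤ X ∧ p ∈ Pool.Agent.H18PR.RL.Fam M R} := by
  ext p
  constructor
  · rintro ⟨⟨⟨h1, h2⟩, h3⟩, h4, h5⟩
    exact ⟨h3, h4, h1, h5⟩
  · rintro ⟨h3, h4, h1, h5⟩
    exact ⟨⟨⟨h1, hmin p ⟨h4, h1, h5⟩⟩, h3⟩, h4, h5⟩

/-- **The law of `rank E(ℚ) + dim Ш(E)[2]`.** Let `ε > 0`. There are `M`, a union `R` of residue classes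
modulo `M` and `c > 0` such that for all large `X` at least `c` times as many as all elliptic curves over
`ℚ` of height at most `X` are in the family of `M` and `R`, and among those in the family:
(1) the proportion with `rank E(ℚ) + dim Ш(E)[2] ∈ K` is `∑_{k ∈ K} C_{2,k}` up to `ε`, for every set `K`;
(2) the proportion with `E(ℚ)` finite of odd order and `Ш(E)[2^∞] = 0` is `C_{2,0}` up to `ε`;
(3) the proportion with at least `2^k` elements in `Ш(E)[2]` is at most `∑_{j ≥ k} C_{2,j} + ε`, for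
every `k`. -/
theorem result (ε : ℝ) (hε : 0 < ε) :
    ∃ (M : ℕ) (R : Set (ℤ × ℤ)), 0 < M ∧ Periodic M R ∧ ∃ c : ℝ, 0 < c ∧ ∃ X₀ : ℝ, ∀ X : ℝ, X₀ ≤ X →
      (UpTo X).Finite ∧ 0 < (UpTo X).ncard ∧
      c * ((UpTo X).ncard : ℝ) ≤ ((UpTo X ∩ Family M R).ncard : ℝ) ∧
      Law ε (UpTo X ∩ Family M R) := by
  have hS : Pool.Agent.H68K.PR.S_SHA2 := Pool.Agent.H18PR.RL.sha2
  obtain ⟨M, R, hM, hR, hmin, c, Y₀, hc, h⟩ := Pool.Agent.H18PR.RL.ratlaw ε hε
  refine ⟨M, R, hM, hR, c, hc, Y₀, fun X hX => ?_⟩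
  obtain ⟨hfin, h1⟩ := h X
  obtain ⟨h2, h3, h4⟩ := h1 hX
  have hsub : UpTo X ⊆ {p : ℤ × ℤ | (Pool.Agent.H18PR.RL.Hn p : ℝ) ≤ X ∧
      Pool.Agent.H18PR.RL.disc p ≠ 0} := fun p hp => ⟨hp.2, hp.1.1⟩
  have hfin2 : {p : ℤ × ℤ | (Pool.Agent.H18PR.RL.Hn p : ℝ) ≤ X ∧
      Pool.Agent.H18PR.RL.disc p ≠ 0}.Finite := hfin.subset fun p hp => hp.1
  have hfinU : (UpTo X).Finite := hfin2.subset hsub
  have hcard : ((UpTo X).ncard : ℝ) ≤ ({p : ℤ × ℤ | (Pool.Agent.H18PR.RL.Hn p : ℝ) ≤ X ∧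
      Pool.Agent.H18PR.RL.disc p ≠ 0}.ncard : ℝ) := by
    exact_mod_cast Set.ncard_le_ncard hsub hfin2
  set G : Set (ℤ × ℤ) := UpTo X ∩ Family M R with hG
  have hGe : G = {p : ℤ × ℤ | (Pool.Agent.H18PR.RL.Hn p : ℝ) ≤ X ∧
      p ∈ Pool.Agent.H18PR.RL.Fam M R} := isCurve_of hmin X
  have hGfin : G.Finite := hfinU.subset Set.inter_subset_left
  rw [← hGe] at h3
  have hlaw : ∀ K : Set ℕ, |({x | x ∈ G ∧ ∃ k ∈ K, Pool.Agent.H68K.PR.Gd (2 ^ k) (E x)}.ncard : ℝ) -
      (∑' k : K, Pool.Agent.H68K.PR.pr2 k) * (G.ncard : ℝ)| ≤ ε * (G.ncard : ℝ) := by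
    intro K
    refine le_trans (le_of_eq ?_) ((h4 K).trans (le_of_eq ?_))
    · rw [hGe]
      congr 4
      ext x
      exact and_assoc
    · rw [hGe]
  have hpos : 0 < (UpTo X).ncard := by
    have e1 : (0 : ℝ) < ({p : ℤ × ℤ | (Pool.Agent.H18PR.RL.Hn p : ℝ) ≤ X ∧
      Pool.Agent.H18PR.RL.disc p ≠ 0}.ncard : ℝ) := by exact_mod_cast h2
    have e2 : (0 : ℝ) < (G.ncard : ℝ) := (mul_pos hc e1).trans_le h3
    have e3 : (G.ncard : ℝ) ≤ ((UpTo X).ncard : ℝ) := by
      exact_mod_cast Set.ncard_le_ncard Set.inter_subset_left hfinU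
    exact_mod_cast e2.trans_le e3
  refine ⟨hfinU, hpos, (mul_le_mul_of_nonneg_left hcard hc.le).trans h3, ⟨fun K => ?_, ?_,
    fun k => ?_⟩⟩
  · refine Pool.Agent.H68K.PR.sandwich G hGfin (fun k p => Pool.Agent.H68K.PR.Gd (2 ^ k) (E p)) ε
      hlaw K {p | ∃ k ∈ K, 2 ^ rank p * shaTwo p = 2 ^ k} ?_ ?_
    · rintro p - ⟨k, hk, h5⟩
      exact ⟨k, hk, law_of_gd hS h5⟩
    · rintro p - ⟨k, hk, h5⟩ ⟨l, hl, h6⟩
      rw [law_of_gd hS h5] at h6
      exact hk ((Nat.pow_right_injective le_rfl h6) ▸ hl)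
  · have h5 := Pool.Agent.H68K.PR.sandwich G hGfin
      (fun k p => Pool.Agent.H68K.PR.Gd (2 ^ k) (E p)) ε hlaw {0} {p | Good p} (by
        rintro p - ⟨k, hk, h5⟩
        rw [Set.mem_singleton_iff.1 hk] at h5
        exact good_of_gd h5) (by
        rintro p - ⟨k, hk, h5⟩ h6
        have h7 := law_of_good h6
        rw [law_of_gd hS h5] at h7
        apply hk
        rw [Set.mem_singleton_iff]
        by_contra h8
        exact absurd h7 (Nat.one_lt_two_pow h8).ne')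
    have e1 : (∑' k : ({0} : Set ℕ), Pool.Agent.H68K.PR.pr2 k) = poonenRains 0 := by
      rw [tsum_singleton]
      rfl
    rw [e1] at h5
    exact h5
  · have h5 := upper G hGfin (fun k p => Pool.Agent.H68K.PR.Gd (2 ^ k) (E p)) ε hlaw
      {j | k ≤ j} {p | 2 ^ k ≤ shaTwo p} (by
        rintro p - ⟨j, hj, h5⟩ h6
        have h7 := law_of_gd hS h5
        have h8 : (2 : ℕ) ^ k ≤ 2 ^ j := by
          rw [← h7]
          exact le_trans h6 (Nat.le_mul_of_pos_left _ (by positivity))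
        exact hj ((Nat.pow_le_pow_iff_right (by norm_num)).1 h8))
    exact h5

end Pool.Agent.Results.MP_e23604_nt.ShaTwoTorsionLaw
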